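import Pool.Agent.Helper38K9.SC.Pair
import Pool.Agent.Helper38K9.SC.Coin

/-!
# Furstenberg systems of aperiodic multiplicative functions with values `1` and `-1`: a common sparse
sequence of places on which countably many of them are nearly Bernoulli

Given for every `m` an aperiodic multiplicative function `f m` with values `1` and `-1`, a Furstenberg
system `μ m` of `f m`, an event `E m` of positive probability, an arbitrary sequence
`A m 0, A m 1, ...` of distinct places and `δ m > 0`, there is one sequence of indices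
`i 0 < i 1 < ...`, of explicit growth, such that for all `m`: conditionally on `E m` the signs at the
places `A m (i k)`, `k ≥ m`, have all finite patterns with probabilities within a factor `1 ± δ m` of
those of independent fair signs.
-/

set_option autoImplicit false

namespace Pool.Agent.Results.MP_4a7640_nt.CommonSparsePlaces

open MeasureTheory Filter Topology Finset

/-- the numbers `-1`, `0`, `1` -/
abbrev Val : Type := ({-1, 0, 1} : Set ℝ)

/-- the space of two-sided sequences -/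
abbrev X : Type := ℤ → Val

/-- the `n`-th power of the shift -/
def shift (n : ℤ) (x : X) : X := fun k => x (k + n)

/-- the sequence of the values `f n`, `n ≥ 1`, extended by zero -/
noncomputable def seq (f : ℕ → Val) : X := fun n => if 1 ≤ n then f n.toNat else ⟨0, by simp⟩

/-- `μ` is a Furstenberg system of `f`: a weak-star limit, along some sequence `N j → ∞`, of the
logarithmic averages of the point masses at the shifts of the sequence of values of `f` -/
def IsFurstenbergSystem (f : ℕ → Val) (μ : Measure X) : Prop :=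
  IsProbabilityMeasure μ ∧ ∃ N : ℕ → ℕ, Tendsto N atTop atTop ∧ ∀ φ : X → ℝ, Continuous φ →
    Tendsto (fun j => (1 / Real.log (N j : ℝ)) * ∑ n ∈ Icc 1 (N j), (1 / (n : ℝ)) * φ (shift (n : ℤ) (seq f)))
      atTop (𝓝 (∫ x, φ x ∂μ))

/-- multiplicative functions with values `1` and `-1` -/
def IsMult (f : ℕ → Val) : Prop := (∀ n : ℕ, 1 ≤ n → (f n : ℝ) ≠ 0) ∧
  ∀ m n : ℕ, 1 ≤ m → 1 ≤ n → Nat.Coprime m n → (f (m * n) : ℝ) = f m * f n

/-- the distance to every Dirichlet character is infinite -/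
def Aperiodic (f : ℕ → Val) : Prop := ∀ Q : ℕ, 0 < Q → ∀ χ : DirichletCharacter ℂ Q,
  ¬ Summable (fun p : ℕ => if p.Prime then
    (1 - (((f p : ℝ) : ℂ) * (starRingEnd ℂ) (χ (p : ZMod Q))).re) / (p : ℝ) else 0)

lemma val_le (z : Val) : |(z : ℝ)| ≤ 1 := by
  have h := z.2
  simp only [Set.mem_insert_iff, Set.mem_singleton_iff] at h
  rcases h with h | h | h <;> rw [h] <;> simp

lemma seq_nat (f : ℕ → Val) (n : ℕ) (hn : 1 ≤ n) : seq f n = f n := by
  unfold seq
  rw [if_pos (by exact_mod_cast hn), Int.toNat_natCast]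

lemma val_pm {f : ℕ → Val} (hf : IsMult f) (n : ℕ) (hn : 1 ≤ n) : (f n : ℝ) = 1 ∨ (f n : ℝ) = -1 := by
  have h := (f n).2
  simp only [Set.mem_insert_iff, Set.mem_singleton_iff] at h
  rcases h with h | h | h
  · exact Or.inr h
  · exact absurd h (hf.1 n hn)
  · exact Or.inl h

/-- the integer valued version -/
noncomputable def gz (f : ℕ → Val) (n : ℕ) : ℤ := if (f n : ℝ) = 1 then 1 else -1

lemma gz_eq {f : ℕ → Val} (hf : IsMult f) (n : ℕ) (hn : 1 ≤ n) : ((gz f n : ℤ) : ℝ) = f n := by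
  unfold gz
  rcases val_pm hf n hn with h | h
  · rw [if_pos h, h]; norm_num
  · rw [if_neg (by rw [h]; norm_num), h]; norm_num

lemma gz_ms {f : ℕ → Val} (hf : IsMult f) : Pool.Agent.R512.P.MS (gz f) := by
  refine ⟨fun n _ => ?_, fun m n hm hn hc => ?_⟩
  · unfold gz
    split_ifs
    · exact Or.inl rfl
    · exact Or.inr rfl
  · have h := hf.2 m n hm hn hc
    rw [← gz_eq hf m hm, ← gz_eq hf n hn, ← gz_eq hf (m * n) (Nat.mul_pos hm hn)] at h
    exact_mod_cast h

lemma gz_real {f : ℕ → Val} (hf : IsMult f) (h : Aperiodic f) :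
    Pool.Agent.R512.G.NoReal (fun n => (gz f n : ℝ)) := by
  intro q χ hq _ hs
  apply h q hq χ
  have h1 : Summable (fun p : Nat.Primes => (fun p : ℕ => if p.Prime then
    (1 - (((f p : ℝ) : ℂ) * (starRingEnd ℂ) (χ (p : ZMod q))).re) / (p : ℝ) else 0) (p : ℕ)) := by
    refine hs.congr fun p => ?_
    simp only
    rw [if_pos p.2, Complex.re_ofReal_mul, Complex.conj_re, gz_eq hf p p.2.one_lt.le]
  have h2 := (Function.Injective.summable_iff (g := fun p : Nat.Primes => (p : ℕ))
    (f := fun p : ℕ => if p.Prime then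
    (1 - (((f p : ℝ) : ℂ) * (starRingEnd ℂ) (χ (p : ZMod q))).re) / (p : ℝ) else 0)
    Subtype.val_injective (fun p hp => by
      rw [if_neg]
      intro hp'
      exact hp ⟨⟨p, hp'⟩, rfl⟩)).1
  exact h2 h1

/-- distinct coordinates are orthogonal -/
lemma ortho {f : ℕ → Val} (hf : IsMult f) (ha : Aperiodic f) {μ : Measure X}
    (hμ : IsFurstenbergSystem f μ) (i j : ℤ) (hij : i ≠ j) : ∫ x : X, (x i : ℝ) * (x j : ℝ) ∂μ = 0 := by
  obtain ⟨hprob, N, hN, hlim⟩ := hμ
  have h1 := Pool.Agent.Helper38K9.SC.pairZ (gz_ms hf) (gz_real hf ha) (fun z => (seq f z : ℝ))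
    (fun z => val_le _) (fun n hn => by
      show ((seq f (n : ℤ) : Val) : ℝ) = gz f n
      rw [seq_nat f n hn, gz_eq hf n hn]) hN i j hij
  have h2 := hlim (fun x => (x i : ℝ) * (x j : ℝ)) (by fun_prop)
  exact tendsto_nhds_unique h2 h1

/-- the coordinates are almost surely signs -/
lemma ae_pm {f : ℕ → Val} (hf : IsMult f) {μ : Measure X} (hμ : IsFurstenbergSystem f μ) (j : ℤ) :
    ∀ᵐ x ∂μ, (x j : ℝ) = 1 ∨ (x j : ℝ) = -1 := by
  obtain ⟨hprob, N, hN, hlim⟩ := hμ
  have hc : Continuous fun x : X => ((x j : ℝ)) ^ 2 := by fun_prop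
  have h2 := hlim _ hc
  obtain ⟨A, hA⟩ : ∃ A : ℤ → ℂ, A = fun z => (((seq f z : ℝ) ^ 2 : ℝ) : ℂ) := ⟨_, rfl⟩
  have hA1 : ∀ z, ‖A z‖ ≤ 1 := fun z => by
    rw [hA]
    simp only
    rw [Complex.norm_real, Real.norm_eq_abs, abs_pow]
    exact pow_le_one₀ (abs_nonneg _) (val_le _)
  have h3 : Tendsto (fun s => ((1 / Real.log (N s : ℝ) : ℝ) : ℂ) *
      ∑ n ∈ Icc 1 (N s), A (n : ℤ) / (n : ℂ)) atTop (𝓝 1) := by
    have h4 := hlim (fun _ => 1) continuous_const
    rw [integral_const, smul_eq_mul, mul_one, probReal_univ] at h4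
    have h5 := (Complex.continuous_ofReal.tendsto (1 : ℝ)).comp h4
    rw [Complex.ofReal_one] at h5
    refine h5.congr fun s => ?_
    simp only [Function.comp_apply]
    push_cast
    congr 1
    apply sum_congr rfl
    intro n hn
    rw [mem_Icc] at hn
    rw [hA]
    simp only
    rw [seq_nat f n hn.1]
    rcases val_pm hf n hn.1 with h | h <;> rw [h] <;> norm_num
  have h4 := Pool.Agent.R512.G.log_lim_shift hN A hA1 j 1 h3
  have h5 := (Complex.continuous_re.tendsto (1 : ℂ)).comp h4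
  rw [Complex.one_re] at h5
  have h6 : Tendsto (fun s => (1 / Real.log (N s : ℝ)) * ∑ n ∈ Icc 1 (N s), (1 / (n : ℝ)) *
      ((shift (n : ℤ) (seq f) j : Val) : ℝ) ^ 2) atTop (𝓝 1) := by
    refine h5.congr fun s => ?_
    simp only [Function.comp_apply]
    have h7 : ((1 / Real.log (N s : ℝ) : ℝ) : ℂ) * ∑ n ∈ Icc 1 (N s), A ((n : ℤ) + j) / (n : ℂ) =
        (((1 / Real.log (N s : ℝ)) * ∑ n ∈ Icc 1 (N s), (1 / (n : ℝ)) *
          ((shift (n : ℤ) (seq f) j : Val) : ℝ) ^ 2 : ℝ) : ℂ) := by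
      push_cast
      congr 1
      apply sum_congr rfl
      intro n _
      rw [hA]
      unfold shift
      simp only
      rw [add_comm (n : ℤ) j]
      push_cast
      ring
    rw [h7, Complex.ofReal_re]
  have h7 : ∫ x : X, (x j : ℝ) ^ 2 ∂μ = 1 := tendsto_nhds_unique h2 h6
  have hb : ∀ x : X, (x j : ℝ) ^ 2 ≤ 1 := fun x => by
    rw [← sq_abs]
    exact pow_le_one₀ (abs_nonneg _) (val_le _)
  have hint : Integrable (fun x : X => (x j : ℝ) ^ 2) μ :=
    Integrable.of_bound hc.measurable.aestronglyMeasurable 1 (Eventually.of_forall fun x => by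
      rw [Real.norm_eq_abs, abs_of_nonneg (sq_nonneg _)]
      exact hb x)
  have h8 : ∫ x : X, (1 - (x j : ℝ) ^ 2) ∂μ = 0 := by
    rw [integral_sub (integrable_const _) hint, h7, integral_const, smul_eq_mul, mul_one,
      probReal_univ, sub_self]
  have h9 := (integral_eq_zero_iff_of_nonneg (fun x => sub_nonneg.2 (hb x))
    ((integrable_const _).sub hint)).1 h8
  filter_upwards [h9] with x hx
  have hx' : 1 - (x j : ℝ) ^ 2 = 0 := hx
  have : ((x j : ℝ) - 1) * ((x j : ℝ) + 1) = 0 := by linarith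
  rcases mul_eq_zero.1 this with h | h
  · left; linarith
  · right; linarith

/-- **Countably many Furstenberg systems are nearly Bernoulli on a common sparse sequence of places.**
For every `m` let `f m` be an aperiodic multiplicative function with values `1` and `-1`, `μ m` a
Furstenberg system of `f m`, `A m` a sequence of distinct places, `E m` an event with
`μ m (E m) > 0` and `0 < δ m ≤ 1`. There are indices `i 0 < i 1 < ...` with
`i k + 1 ≤ ∑_{m ≤ k} 4^(k-m+1) ((k-m+1)(k-m+2))^2 / (μ m (E m) δ m^2)` such that for every `m`, every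
finite set `F` of numbers `k ≥ m` and all signs `e k` the probability under `μ m` of the event that
`x` is in `E m` and `x (A m (i k)) = e k` for all `k` in `F` lies between `(1 - δ m) 2^(-#F) μ m (E m)`
and `(1 + δ m) 2^(-#F) μ m (E m)`. -/
theorem result (f : ℕ → ℕ → Val) (hf : ∀ m, IsMult (f m)) (ha : ∀ m, Aperiodic (f m))
    (μ : ℕ → Measure X) (hμ : ∀ m, IsFurstenbergSystem (f m) (μ m))
    (A : ℕ → ℕ → ℤ) (hA : ∀ m, Function.Injective (A m))
    (E : ℕ → Set X) (hE : ∀ m, MeasurableSet (E m)) (hE0 : ∀ m, 0 < (μ m).real (E m))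
    (δ : ℕ → ℝ) (hδ : ∀ m, 0 < δ m ∧ δ m ≤ 1) :
    ∃ i : ℕ → ℕ, StrictMono i ∧
      (∀ k, (i k : ℝ) + 1 ≤ ∑ m ∈ range (k + 1),
        4 ^ (k - m + 1) * ((((k - m : ℕ) : ℝ) + 1) * (((k - m : ℕ) : ℝ) + 2)) ^ 2 /
          ((μ m).real (E m) * δ m ^ 2)) ∧
      ∀ (m : ℕ) (F : Finset ℕ), (∀ k ∈ F, m ≤ k) → ∀ e : ℕ → ℝ, (∀ k, e k = 1 ∨ e k = -1) →
        (1 - δ m) * (1 / 2) ^ F.card * (μ m).real (E m) ≤
          (μ m).real (E m ∩ {x | ∀ k ∈ F, (x (A m (i k)) : ℝ) = e k}) ∧
        (μ m).real (E m ∩ {x | ∀ k ∈ F, (x (A m (i k)) : ℝ) = e k}) ≤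
          (1 + δ m) * (1 / 2) ^ F.card * (μ m).real (E m) := by
  have hprob : ∀ m, IsProbabilityMeasure (μ m) := fun m => (hμ m).1
  obtain ⟨i, hi1, hi2, hi3⟩ := Pool.Agent.Helper38K9.SC.coins μ (fun m a x => (x (A m a) : ℝ))
    (fun m a => by fun_prop) (fun m a x => val_le _) (fun m a => ae_pm (hf m) (hμ m) _)
    (fun m a b hab => ortho (hf m) (ha m) (hμ m) _ _ fun h => hab (hA m h)) E hE hE0 δ
    (fun m => (hδ m).1) (fun m => (hδ m).2)
  refine ⟨i, hi1, fun k => (hi2 k).trans (le_of_eq (sum_congr rfl fun m _ => ?_)), ?_⟩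
  · unfold Pool.Agent.Helper38K9.SC.K
    rw [pow_succ (4 : ℝ)]
    ring
  · intro m F hF e he
    have h1 := hi3 m F hF e he
    rw [abs_le] at h1
    have h2 : (1 / 2 : ℝ) ^ F.card * 2 ^ F.card = 1 := by
      rw [← mul_pow]
      norm_num
    have h3 : (0 : ℝ) < (1 / 2) ^ F.card := by positivity
    set p := (μ m).real (E m ∩ {x | ∀ k ∈ F, (x (A m (i k)) : ℝ) = e k}) with hp
    have h4 : p = (1 / 2 : ℝ) ^ F.card * (2 ^ F.card * p) := by
      rw [← mul_assoc, h2, one_mul]
    constructor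
    · have h5 : (1 - δ m) * (μ m).real (E m) ≤ 2 ^ F.card * p := by linarith [h1.1]
      calc (1 - δ m) * (1 / 2) ^ F.card * (μ m).real (E m) =
          (1 / 2) ^ F.card * ((1 - δ m) * (μ m).real (E m)) := by ring
        _ ≤ (1 / 2) ^ F.card * (2 ^ F.card * p) := mul_le_mul_of_nonneg_left h5 h3.le
        _ = p := h4.symm
    · have h5 : 2 ^ F.card * p ≤ (1 + δ m) * (μ m).real (E m) := by linarith [h1.2]
      calc p = (1 / 2) ^ F.card * (2 ^ F.card * p) := h4
        _ ≤ (1 / 2) ^ F.card * ((1 + δ m) * (μ m).real (E m)) := mul_le_mul_of_nonneg_left h5 h3.le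
        _ = (1 + δ m) * (1 / 2) ^ F.card * (μ m).real (E m) := by ring

end Pool.Agent.Results.MP_4a7640_nt.CommonSparsePlaces
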