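import Pool.Agent.Helper94K9.OP.Ort
import Pool.Agent.Helper94K9.OP.Eqd
import Pool.Agent.Helper94K9.OP.Fin
import Pool.Agent.Helper94K9.OP.Exk
import Pool.Agent.Helper94K9.OP.Ex2
import Pool.Agent.Helper94K9.OP.Inv
import Pool.Agent.Helper94K9.OP.Hsp
import Pool.Agent.Helper94K9.OP.Cov
import Pool.Agent.Helper94K9.OP.Par
import Pool.Agent.Helper94K9.OP.Bsl
import Pool.Agent.Helper94K9.OP.Log
import Pool.Agent.Helper94K9.OP.Den
import Pool.Agent.Helper94K9.OP.Trans
import Pool.Agent.Helper94K9.OP.Tkb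
import Pool.Agent.Helper94K9.OP.Key
import Pool.Agent.Helper94K9.OP.Eqc
import Pool.Agent.Helper94K9.OP.Trf
import Pool.Agent.Helper94K9.OP.Kef
import Pool.Agent.Helper94K9.OP.Opf
import Pool.Agent.Helper94K9.OP.Ldn
import Pool.Agent.Helper94K9.OP.Eqv
import Pool.Agent.Helper94K9.OP.Clo
import Pool.Agent.Helper94K9.OP.Hdn
import Pool.Agent.Helper94K9.OD.Bas
import Pool.Agent.Helper94K9.OD.Tdb
import Pool.Agent.Helper94K9.OD.Eqp
import Pool.Agent.Helper94K9.OD.Trd
import Pool.Agent.Helper94K9.OD.Ked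
import Pool.Agent.Helper94K9.OD.Tor
import Pool.Agent.Helper94K9.OD.Opd
import Pool.Agent.Helper94K9.OD.Fnd
import Pool.Agent.Helper94K9.OD.Ker
import Pool.Agent.Helper94K9.OD.Bnd
import Pool.Agent.Helper94K9.OD.Up2
import Pool.Agent.Helper46K9.OP.Wtd
import Pool.Agent.Helper46K9.OP.L1
import Pool.Agent.Helper46K9.OP.L3
import Pool.Agent.Helper46K9.OP.L4
import Pool.Agent.Helper44K9.FC.Wpr
import Pool.Agent.Helper44K9.FC.Bs
import Pool.Agent.Helper44K9.FU.Chb
import Pool.Agent.Helper44K9.FU.Tk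
import Pool.Agent.Helper44K9.FU.Pw
import Pool.Agent.Helper44K9.FU.Push

/-!
# Furstenberg systems of aperiodic multiplicative functions with values `1` and `-1`: the local frequencies are
equidistributed

Let `f` be an aperiodic multiplicative function with values `1` and `-1` and `μ` a Furstenberg system of
`f`. If `f` correlates with linear phases `e(h θ)` on short intervals, then the frequencies `θ` are
equidistributed: the supremum, over the `θ` in a set `U` of the circle, of `‖∑_{h ≤ L} x(h) e(h θ)‖ / L` has a limit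
in distribution as `L → ∞`; at least the part `|closure (U ∪ -U)|` of the limit for all frequencies is in the limit
for `U`, and the mean of the square of the supremum over `U` is at most `|closure (U ∪ -U)| / 2`; and the measures with the densities `L ‖∑_{h ≤ L} x(h) e(h θ) / L‖⁴` on the circle converge in the mean
over `μ` to a multiple of the Lebesgue measure, which vanishes only if there are no such frequencies. The measures with
the densities `L r ^ 2 K(r)`, `r = ‖∑_{h ≤ L} x(h) e(h θ)‖ / L`, are equidistributed in the logarithmic average over `L`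
for every continuous `K` with `K(0) = 0`: for example the number of frequencies with `r ≥ δ` (smoothed).

For phases `e(P(h))`, `P` a real polynomial of degree at most `d`, we show that the leading coefficients are rational or
equidistributed: if `s U` is the limit for the supremum over all such `P` with coefficient of `X ^ d` in `U` modulo one,
then `|closure (U ∪ -U)| (s(ℝ/ℤ) - s T) ≤ s U` up to `ε`, for a finite set `T` of rational points; and `s T = 0` if the mean
of the supremum over the polynomials of degree `d - 1` tends to zero.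

The values at multiples of a prime `p` show that, on average over the places `n` with the weight `1/n`, the
correlation of `f` with `e(h θ)` on the interval `(n, n + L]` is essentially that with `e(h p θ)` on the
interval `(n/p, (n + L)/p]`, for most `p` (Turán and Kubilius); the numbers `p θ` are equidistributed on
average over `p` unless `θ` is near a rational number with a small denominator (Vinogradov), and these are
excluded by the theorem of Tao on the two point correlations. The upper bound is the same theorem and the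
localization of the energy at the frequencies of the supremum.
-/

set_option autoImplicit false

namespace Pool.Agent.Results.MP_4a7640_nt.EquidistributedFrequencies

open MeasureTheory Filter Topology Finset Polynomial

/-- the numbers `-1`, `0`, `1` -/
abbrev Val : Type := ({-1, 0, 1} : Set ℝ)

/-- the space of two-sided sequences -/
abbrev X : Type := ℤ → Val

/-- the `n`-th power of the shift -/
def shift (n : ℤ) (x : X) : X := fun k => x (k + n)

/-- the sequence of the values `f n`, `n ≥ 1`, extended by zero -/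
noncomputable def seq (f : ℕ → Val) : X := fun n => if 1 ≤ n then f n.toNat else ⟨0, by simp⟩

/-- `μ` is a Furstenberg system of `f`: a weak-star limit, along some sequence `N j → ∞`, of the
logarithmic averages of the point masses at the shifts of the sequence of values of `f` -/
def IsFurstenbergSystem (f : ℕ → Val) (μ : Measure X) : Prop :=
  IsProbabilityMeasure μ ∧ ∃ N : ℕ → ℕ, Tendsto N atTop atTop ∧ ∀ φ : X → ℝ, Continuous φ →
    Tendsto (fun j => (1 / Real.log (N j : ℝ)) * ∑ n ∈ Icc 1 (N j), (1 / (n : ℝ)) * φ (shift (n : ℤ) (seq f)))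
      atTop (𝓝 (∫ x, φ x ∂μ))

/-- multiplicative functions with values `1` and `-1` -/
def IsMult (f : ℕ → Val) : Prop := (∀ n : ℕ, 1 ≤ n → (f n : ℝ) ≠ 0) ∧
  ∀ m n : ℕ, 1 ≤ m → 1 ≤ n → Nat.Coprime m n → (f (m * n) : ℝ) = f m * f n

/-- the distance to every Dirichlet character is infinite -/
def Aperiodic (f : ℕ → Val) : Prop := ∀ Q : ℕ, 0 < Q → ∀ χ : DirichletCharacter ℂ Q,
  ¬ Summable (fun p : ℕ => if p.Prime then
    (1 - (((f p : ℝ) : ℂ) * (starRingEnd ℂ) (χ (p : ZMod Q))).re) / (p : ℝ) else 0)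

/-- the sum of `x(h) e(h θ)` over `1 ≤ h ≤ L` -/
noncomputable def V (L : ℕ) (x : X) (θ : UnitAddCircle) : ℂ :=
  ∑ h ∈ Icc 1 L, ((x (h : ℤ) : ℝ) : ℂ) * (fourier (h : ℤ) θ : ℂ)

/-- the largest correlation on `(0, L]` with a frequency in `U` (zero if `U` is empty) -/
noncomputable def supV (U : Set UnitAddCircle) (L : ℕ) (x : X) : ℝ := ⨆ θ : U, ‖V L x θ‖ / L

/-- the integral of `φ` against the density `L H(‖V L x θ‖ / L)`, in the mean over `x` -/
noncomputable def dens (μ : Measure X) (H : ℝ → ℝ) (φ : UnitAddCircle → ℝ) (L : ℕ) : ℝ :=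
  ∫ x : X, (L * ∫ θ : UnitAddCircle, φ θ * H (‖V L x θ‖ / L)) ∂μ

/-- the real polynomials of degree at most `d` with coefficient of `X ^ d` in `U` modulo one -/
def polys (d : ℕ) (U : Set UnitAddCircle) : Set ℝ[X] :=
  {P | P.natDegree ≤ d ∧ ((P.coeff d : ℝ) : UnitAddCircle) ∈ U}

/-- `e(t) = exp(2 π i t)` -/
noncomputable def e (t : ℝ) : ℂ := Complex.exp (2 * Real.pi * Complex.I * t)

/-- the largest correlation on `(0, L]` with a phase `e(P(h))`, `P` in `polys d U` (zero if `U` is empty) -/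
noncomputable def supP (d : ℕ) (U : Set UnitAddCircle) (L : ℕ) (x : X) : ℝ :=
  ⨆ P : polys d U, ‖∑ h ∈ Icc 1 L, ((x (h : ℤ) : ℝ) : ℂ) * e ((P : ℝ[X]).eval (h : ℝ))‖ / L

/-- the points of order at most `Q` of the circle -/
def torsion (Q : ℕ) : Set UnitAddCircle := {θ | ∃ q : ℕ, 1 ≤ q ∧ q ≤ Q ∧ q • θ = 0}

section
open Pool.Agent.Helper94K9.OP

theorem trans' : S_TRANS :=
  trans_ (eqd Pool.Agent.Helper44K9.FC.wpr Pool.Agent.Helper44K9.FU.chb) (tkb Pool.Agent.Helper44K9.FU.tk)
    (bsl Pool.Agent.Helper44K9.FC.bs1) par cov maj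

theorem key' : S_KEY := key trans' ort inv

theorem l4' : S_L4 :=
  Pool.Agent.Helper46K9.OP.l4 Pool.Agent.Helper46K9.OP.wtd Pool.Agent.Helper46K9.OP.l1
    (Pool.Agent.Helper46K9.OP.l3 Pool.Agent.Helper46K9.OP.wtd Pool.Agent.Helper46K9.OP.l1
      Pool.Agent.Helper46K9.OP.l2)

theorem fin' : S_FIN := Pool.Agent.Helper94K9.OP.fin key' exk ex2 inv hsp l4'

theorem log' : S_LOG := log_ key' exk

theorem den' : S_DEN := den exk ex2

theorem kef' : S_KEF :=
  kef (trf (eqc Pool.Agent.Helper44K9.FC.wpr Pool.Agent.Helper44K9.FU.chb) (tkb Pool.Agent.Helper44K9.FU.tk) par maj)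
    ort inv

theorem opf' : S_OPF := opf kef' suf inv

theorem hdn' : S_HDN := hdn (ldn exk log')

theorem up2' : Pool.Agent.Helper94K9.OD.S_UP2 :=
  Pool.Agent.Helper94K9.OD.up2 (Pool.Agent.Helper94K9.OD.bnd Pool.Agent.Helper94K9.OD.ker_) ort

theorem inv' : S_INV := inv

theorem opd' : Pool.Agent.Helper94K9.OD.S_OPD :=
  Pool.Agent.Helper94K9.OD.opd
    (Pool.Agent.Helper94K9.OD.ked
      (Pool.Agent.Helper94K9.OD.trd (Pool.Agent.Helper94K9.OD.eqp Pool.Agent.Helper44K9.FU.pw Pool.Agent.Helper44K9.FU.chb)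
        (Pool.Agent.Helper44K9.FU.push Pool.Agent.Helper44K9.FU.tk))
      Pool.Agent.Helper94K9.OD.bas Pool.Agent.Helper94K9.OD.tdb inv)
    (Pool.Agent.Helper94K9.OD.lim Pool.Agent.Helper94K9.OD.bas) Pool.Agent.Helper94K9.OD.bas
    Pool.Agent.Helper94K9.OD.tdb inv

end

/-- **The local frequencies are equidistributed.** Let `μ` be a Furstenberg system of an aperiodic multiplicative
function with values `1` and `-1`. (1) For every continuous nondecreasing `F` with `F 0 = 0` and every set `U` of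
frequencies the mean of `F (supV U L x)` has a limit `s U` as `L → ∞`, `|closure (U ∪ -U)| s(ℝ/ℤ) ≤ s U`, and
`s U ≤ |closure (U ∪ -U)| / 2` if `F t ≤ t ^ 2` for `0 ≤ t ≤ 1`. (2) For polynomials of degree at most `d`, `d ≥ 2`, the mean of
`F (supP d U L x)` has a limit `s U` for every set `U` of leading coefficients, for every `ε > 0` there is `Q` with
`|closure (U ∪ -U)| (s(ℝ/ℤ) - s(torsion Q)) ≤ s U + ε`, and if the mean of the supremum over all polynomials of degree
`d - 1` tends to zero then `|closure (U ∪ -U)| s(ℝ/ℤ) ≤ s U`. (3) The densities `L ‖V L x θ / L‖⁴` on the circle, integrated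
over `x`, converge weakly to `c` times the Lebesgue measure, where `c` vanishes if and only if the mean of the supremum
over all frequencies tends to zero. (4) For every continuous function `φ` on the circle and every continuous `K` with
`K 0 = 0` the difference of the integrals of `φ` and of its mean against the densities `L r ^ 2 K(r)`,
`r = ‖V L x θ‖ / L`, tends to zero in the logarithmic average over `L`. -/
theorem result (f : ℕ → Val) (hf : IsMult f) (ha : Aperiodic f) (μ : Measure X)
    (hμ : IsFurstenbergSystem f μ) :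
    (∀ F : ℝ → ℝ, Continuous F → Monotone F → F 0 = 0 → ∃ s : Set UnitAddCircle → ℝ,
      (∀ U, Tendsto (fun L : ℕ => ∫ x, F (supV U L x) ∂μ) atTop (𝓝 (s U))) ∧
      (∀ U, (volume (closure (U ∪ -U))).toReal * s Set.univ ≤ s U) ∧
      ((∀ t ∈ Set.Icc (0 : ℝ) 1, F t ≤ t ^ 2) → ∀ U, s U ≤ (volume (closure (U ∪ -U))).toReal / 2)) ∧
    (∀ d : ℕ, 2 ≤ d → ∀ F : ℝ → ℝ, Continuous F → Monotone F → F 0 = 0 → ∃ s : Set UnitAddCircle → ℝ,
      (∀ U, Tendsto (fun L : ℕ => ∫ x, F (supP d U L x) ∂μ) atTop (𝓝 (s U))) ∧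
      (∀ U, ∀ ε > 0, ∃ Q : ℕ, (volume (closure (U ∪ -U))).toReal * (s Set.univ - s (torsion Q)) ≤ s U + ε) ∧
      (Tendsto (fun L : ℕ => ∫ x, supP (d - 1) Set.univ L x ∂μ) atTop (𝓝 0) →
        ∀ U, (volume (closure (U ∪ -U))).toReal * s Set.univ ≤ s U)) ∧
    (∃ c : ℝ, (∀ φ : C(UnitAddCircle, ℝ),
      Tendsto (fun L : ℕ => dens μ (fun t => t ^ 4) φ L) atTop (𝓝 (c * ∫ θ : UnitAddCircle, φ θ))) ∧
      (c = 0 ↔ Tendsto (fun L : ℕ => ∫ x, supV Set.univ L x ∂μ) atTop (𝓝 0))) ∧
    ∀ (K : ℝ → ℝ) (φ : C(UnitAddCircle, ℝ)), Continuous K → K 0 = 0 →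
      Tendsto (fun M : ℕ => (∑ L ∈ Icc 1 M, (1 / (L : ℝ)) * (dens μ (fun t => t ^ 2 * K t) φ L -
        (∫ θ : UnitAddCircle, φ θ) * dens μ (fun t => t ^ 2 * K t) (fun _ => 1) L)) / Real.log M) atTop (𝓝 0) := by
  have hμ' : Pool.Agent.Helper94K9.OP.IsFurstenbergSystem f μ := hμ
  have : IsProbabilityMeasure μ := hμ.1
  refine ⟨fun F hF hm h0 => ?_, fun d hd F hF hm h0 => ?_, ?_, fun K φ hK hK0 => hdn' f μ hf ha hμ' K φ hK hK0⟩
  · obtain ⟨s, hs, ho⟩ := opf' f μ hf ha hμ' F hF hm h0
    refine ⟨s, hs, fun U => ?_, fun hF2 U => ?_⟩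
    · have hs0 : 0 ≤ s Set.univ := ge_of_tendsto (hs Set.univ) (Eventually.of_forall fun L =>
        integral_nonneg fun x => h0.symm.le.trans (hm (Pool.Agent.Helper94K9.OP.SubL.SU_nonneg _ L x)))
      have hsym : s (U ∪ -U) = s U := by
        refine tendsto_nhds_unique (hs (U ∪ -U)) ((hs U).congr fun L => ?_)
        exact integral_congr_ae (Eventually.of_forall fun x =>
          congrArg F (Pool.Agent.Helper94K9.OP.OpnL.SU_symm U L x).symm)
      refine le_of_forall_pos_le_add fun ε hε => ?_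
      obtain ⟨V, hV, hUV, hsV⟩ := Pool.Agent.Helper94K9.OP.clo μ (inv' f μ hμ') F hF s hs (U ∪ -U) ε hε
      have h1 := ho V hV
      have h2 : (volume (closure (U ∪ -U))).toReal ≤ (volume (V ∪ -V)).toReal :=
        ENNReal.toReal_mono (measure_ne_top _ _) (measure_mono (hUV.trans Set.subset_union_left))
      have h3 := mul_le_mul_of_nonneg_right h2 hs0
      rw [hsym] at hsV
      linarith
    · obtain ⟨t, ht⟩ := Pool.Agent.Helper94K9.OP.suf μ (inv' f μ hμ') U (fun y => y ^ 2) (continuous_pow 2)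
      refine le_trans ?_ (up2' f μ hf ha hμ' U t ht)
      refine le_of_tendsto_of_tendsto' (hs U) ht fun L => ?_
      exact integral_mono (Pool.Agent.Helper94K9.OP.OpfL.F_int F hF U L)
        (Pool.Agent.Helper94K9.OP.OpfL.F_int _ (continuous_pow 2) U L) fun x =>
          hF2 _ ⟨Pool.Agent.Helper94K9.OP.SubL.SU_nonneg U L x, Pool.Agent.Helper94K9.OP.SubL.SU_le_one U L x⟩
  · obtain ⟨s, hs, ho⟩ := opd' f μ hf hμ' d F (by omega) hF hm h0
    refine ⟨s, hs, ho, fun hlow U => ?_⟩
    refine le_of_forall_pos_le_add fun ε hε => ?_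
    obtain ⟨Q, hQ⟩ := ho U ε hε
    have h1 := Pool.Agent.Helper94K9.OD.fnd Pool.Agent.Helper94K9.OD.bas Pool.Agent.Helper94K9.OD.tor μ d hd F hF hm h0
      hlow Q _ (hs _)
    have h2 : (volume (closure (U ∪ -U))).toReal * s Set.univ ≤ (volume (closure (U ∪ -U))).toReal *
        (s Set.univ - s {θ : UnitAddCircle | ∃ q : ℕ, 1 ≤ q ∧ q ≤ Q ∧ q • θ = 0}) :=
      mul_le_mul_of_nonneg_left (by linarith) ENNReal.toReal_nonneg
    exact h2.trans hQ
  obtain ⟨c, h0, hm⟩ := fin' f μ hf ha hμ'
  have hd : ∀ φ : C(UnitAddCircle, ℝ),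
      Tendsto (fun L : ℕ => dens μ (fun t => t ^ 4) φ L) atTop (𝓝 (c * ∫ θ : UnitAddCircle, φ θ)) := den' μ c h0 hm
  obtain ⟨s, hs, -⟩ := opf' f μ hf ha hμ' (fun t => t) continuous_id monotone_id rfl
  have hs' : Tendsto (fun L : ℕ => ∫ x, supV Set.univ L x ∂μ) atTop (𝓝 (s Set.univ)) := hs Set.univ
  have hd1 : Tendsto (fun L : ℕ => dens μ (fun t => t ^ 4) (fun _ => 1) L) atTop (𝓝 c) := by
    have h1 := hd (ContinuousMap.const _ 1)
    have h2 : (∫ θ : UnitAddCircle, (ContinuousMap.const UnitAddCircle (1 : ℝ)) θ) = 1 := by simp [Measure.real]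
    rw [h2, mul_one] at h1
    exact h1
  have he := Pool.Agent.Helper94K9.OP.eqv μ c (s Set.univ) hd1 (hs Set.univ)
  refine ⟨c, hd, fun hc => ?_, fun ht => ?_⟩
  · rw [he.1 hc] at hs'
    exact hs'
  · exact he.2 (tendsto_nhds_unique hs' ht)

end Pool.Agent.Results.MP_4a7640_nt.EquidistributedFrequencies
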