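import Pool.Agent.Helper82K9.PX.PX7

/-!
# Bernoulli statistics of aperiodic multiplicative functions at the values of almost all polynomials

From the starting files: the Matomaki-Radziwill theorem for completely multiplicative functions with values `1` and
`-1` in residue classes, uniformly in the function (`Pool.Agent.R512.U`), and some lemmas on boxes of polynomials
(`Pool.Agent.TH892.RT`).
From this run: the exponential sums of all real multiplicative functions in almost all short windows, uniformly in the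
function (`Pool.Agent.Helper82K9.EL`).
From Mathlib: `DirichletCharacter ℂ q`: the Dirichlet characters of modulus `q`; `Finset.Icc 1 X`: the integers from
`1` to `X`; `Fintype.piFinset fun i => S i`: the functions `a` with `a i ∈ S i` for all `i`; `Function.update u i z`:
the function `u` with the value at `i` replaced by `z`.
-/

set_option autoImplicit false

namespace Pool.Agent.Results.MP_4a7640_nt.PolynomialArguments

open Finset

/-- The multiplicative functions with the values `1` and `-1` (at the positive integers). -/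
def SignMult (f : ℕ → ℝ) : Prop :=
  (∀ n, 1 ≤ n → f n = 1 ∨ f n = -1) ∧ ∀ m n : ℕ, 1 ≤ m → 1 ≤ n → Nat.Coprime m n → f (m * n) = f m * f n

/-- The real multiplicative functions with `|f n| ≤ 1` (and `f 1 = 1`). -/
def RealMult (f : ℕ → ℝ) : Prop :=
  f 1 = 1 ∧ (∀ n, |f n| ≤ 1) ∧ ∀ m n : ℕ, 1 ≤ m → 1 ≤ n → Nat.Coprime m n → f (m * n) = f m * f n

/-- The square of the distance: the sum of `(1 - Re (f p * conj (χ p))) / p` over the primes `p ≤ N`. -/
noncomputable def dist2 (f : ℕ → ℝ) {q : ℕ} (χ : DirichletCharacter ℂ q) (N : ℕ) : ℝ :=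
  ∑ p ∈ (Icc 1 N).filter Nat.Prime, (1 - ((f p : ℂ) * (starRingEnd ℂ) (χ (p : ZMod q))).re) / (p : ℝ)

/-- The aperiodic functions: the distance to every Dirichlet character is infinite. -/
def Aperiodic (f : ℕ → ℝ) : Prop :=
  ∀ (q : ℕ) (χ : DirichletCharacter ℂ q), 1 ≤ q → Filter.Tendsto (fun N : ℕ => dist2 f χ N) Filter.atTop Filter.atTop

/-- At the scale `N` the function `f` is far from the real characters: the square of the distance to each real
character of modulus `q ≤ A` is at least `A`. -/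
def Far (A N : ℕ) (f : ℕ → ℝ) : Prop :=
  ∀ (q : ℕ) (χ : DirichletCharacter ℂ q), 1 ≤ q → q ≤ A → χ ^ 2 = 1 → (A : ℝ) ≤ dist2 f χ N

/-- The function `f` extended to the integers: `c f(-m)` for negative `m`, `0` at `0`. -/
noncomputable def ext (f : ℕ → ℝ) (c : ℝ) (m : ℤ) : ℝ :=
  if 0 < m then f m.toNat else if m < 0 then c * f (-m).toNat else 0

/-- The polynomials of degree at most `d` with coefficients at most `H` in absolute value, given by their
coefficients. -/
noncomputable def box (d H : ℕ) : Finset (Fin (d + 1) → ℤ) := Fintype.piFinset (fun _ => Icc (-(H : ℤ)) H)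

/-- The value at `n` of the polynomial with the coefficients `a`. -/
def value {d : ℕ} (a : Fin (d + 1) → ℤ) (n : ℕ) : ℤ := ∑ j, a j * (n : ℤ) ^ (j : ℕ)

open Classical in
/-- The number of the elements of `S` with the property `F`. -/
noncomputable def number {α : Type} (S : Finset α) (F : α → Prop) : ℝ := ((S.filter F).card : ℝ)

lemma number_le {α : Type} (S : Finset α) (F G : α → Prop) [DecidablePred G] (h : ∀ a ∈ S, F a → G a) :
    number S F ≤ ((S.filter G).card : ℝ) := by
  classical
  unfold number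
  exact Nat.cast_le.2 (card_le_card fun a ha => mem_filter.2 ⟨(mem_filter.1 ha).1, h a (mem_filter.1 ha).1 (mem_filter.1 ha).2⟩)

lemma number_eq {α : Type} (S : Finset α) (F G : α → Prop) [DecidablePred G] (h : ∀ a ∈ S, (F a ↔ G a)) :
    number S F = ((S.filter G).card : ℝ) := by
  classical
  unfold number
  congr 2
  ext a
  constructor
  · intro ha
    exact mem_filter.2 ⟨(mem_filter.1 ha).1, (h a (mem_filter.1 ha).1).1 (mem_filter.1 ha).2⟩
  · intro ha
    exact mem_filter.2 ⟨(mem_filter.1 ha).1, (h a (mem_filter.1 ha).1).2 (mem_filter.1 ha).2⟩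

/-- `f` with the value `0` at `0` -/
noncomputable def zr (f : ℕ → ℝ) (n : ℕ) : ℝ := if n = 0 then 0 else f n

lemma dist_zr (f : ℕ → ℝ) {q : ℕ} (χ : DirichletCharacter ℂ q) (N : ℕ) :
    dist2 f χ N = Pool.Agent.Helper82K9.EL.dstR (zr f) χ N := by
  unfold dist2 Pool.Agent.Helper82K9.EL.dstR
  refine sum_congr rfl fun p hp => ?_
  rw [mem_filter, mem_Icc] at hp
  have : zr f p = f p := by
    unfold zr
    rw [if_neg (by omega)]
  rw [this, Complex.re_ofReal_mul, Complex.re_ofReal_mul, Complex.conj_re]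

lemma far_of {A N : ℕ} {f : ℕ → ℝ} (h : Far A N f) : Pool.Agent.Helper82K9.EL.FarR A N (zr f) := by
  intro q χ h1 h2 h3
  rw [← dist_zr]
  exact h q χ h1 h2 h3

lemma zr_mul {f : ℕ → ℝ} (h : ∀ m n : ℕ, 1 ≤ m → 1 ≤ n → Nat.Coprime m n → f (m * n) = f m * f n) (m n : ℕ)
    (hm : 1 ≤ m) (hn : 1 ≤ n) (hc : Nat.Coprime m n) : zr f (m * n) = zr f m * zr f n := by
  unfold zr
  rw [if_neg (by have := Nat.mul_pos hm hn; omega), if_neg (by omega), if_neg (by omega)]
  exact h m n hm hn hc

lemma real_of {f : ℕ → ℝ} (h : RealMult f) : Pool.Agent.Helper82K9.EL.RMul (zr f) := by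
  refine ⟨?_, fun n => ?_, zr_mul h.2.2⟩
  · unfold zr
    rw [if_neg (by norm_num)]
    exact h.1
  · unfold zr
    split_ifs
    · simp
    · exact h.2.1 n

lemma sign_of {f : ℕ → ℝ} (h : SignMult f) : Pool.Agent.Helper82K9.EL.RMul (zr f) := by
  refine ⟨?_, fun n => ?_, zr_mul h.2⟩
  · unfold zr
    rw [if_neg (by norm_num)]
    have h1 := h.2 1 1 le_rfl le_rfl (by norm_num)
    rw [mul_one] at h1
    rcases h.1 1 le_rfl with h2 | h2
    · exact h2
    · rw [h2] at h1
      norm_num at h1
  · unfold zr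
    split_ifs with h0
    · simp
    · rcases h.1 n (by omega) with h2 | h2 <;> rw [h2] <;> simp

lemma ext_eq (f : ℕ → ℝ) (c : ℝ) (m : ℤ) :
    ((ext f c m : ℝ) : ℂ) = Pool.Agent.Helper82K9.RQ.sg (fun n => (zr f n : ℂ)) (c : ℂ) m := by
  unfold ext Pool.Agent.Helper82K9.RQ.sg zr
  by_cases h1 : 0 < m
  · rw [if_pos h1, if_pos h1]
    beta_reduce
    rw [if_neg (by omega)]
  · rw [if_neg h1, if_neg h1]
    by_cases h2 : m < 0
    · rw [if_pos h2, if_pos h2]
      beta_reduce
      rw [if_neg (by omega)]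
      push_cast
      rfl
    · rw [if_neg h2, if_neg h2]
      simp

/-- Let `h i`, `i < k`, be distinct natural numbers, `k ≥ 1`, let `d ≥ 2 k - 1`, let `C` be real and `ε > 0`.

* (condition) If the multiplicative function `f` with values `1`, `-1` is aperiodic, then for every `A` it is far from
  the real characters at all large scales `N`.
* (sign patterns) There is `A` such that the following holds whenever `A ≤ x` and `A x ^ (3 k - 1) ≤ H`. Let `f` be a
  multiplicative function with values `1` and `-1` which is far from the real characters at the scale `H`, extended to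
  the negative integers by `f(-m) = f(m)` or `f(-m) = - f(m)`, and let `G i n` be arbitrary integers with
  `|G i n| ≤ C H n ^ d`. Then all but at most `ε (2 H + 1) ^ (d + 1)` of the integer polynomials `P` of degree at most
  `d` with coefficients at most `H` in absolute value satisfy
  `| #{n ≤ y : f(P(n + h i) + G i n) = s i for all i} - y / 2 ^ k | ≤ ε x` for all signs `s i` and all `y ≤ x`.
* (correlations) There is `A` such that the following holds whenever `A ≤ x` and `A x ^ (3 k - 1) ≤ H`. Let `f` be a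
  real multiplicative function bounded by `1` which is far from the real characters at the scale `H`, extended to the
  negative integers by `f(-m) = c f(m)` with `|c| ≤ 1`, let `j < k` be an index, `G n` arbitrary integers with
  `|G n| ≤ C H n ^ d`, and let `Φ` be an arbitrary function bounded by `1` which does not depend on the `j`-th
  coordinate of its second argument. Then all but at most `ε (2 H + 1) ^ (d + 1)` of the polynomials `P` satisfy
  `|∑ n ≤ y, f(P(n + h j) + G n) * Φ(n; P(n + h 1), ..., P(n + h k))| ≤ ε x` for all `y ≤ x`. -/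
theorem result (k : ℕ) (hk : 1 ≤ k) (h : Fin k → ℕ) (hinj : Function.Injective h) (d : ℕ) (hd : 2 * k - 1 ≤ d)
    (C ε : ℝ) (hε : 0 < ε) :
    (∀ f : ℕ → ℝ, SignMult f → Aperiodic f → ∀ A : ℕ, ∃ N₀ : ℕ, ∀ N : ℕ, N₀ ≤ N → Far A N f) ∧
    (∃ A : ℕ, ∀ H x : ℕ, A ≤ x → A * x ^ (3 * k - 1) ≤ H →
      ∀ f : ℕ → ℝ, SignMult f → Far A H f → ∀ c : ℝ, (c = 1 ∨ c = -1) →
      ∀ G : Fin k → ℕ → ℤ, (∀ i n, 1 ≤ n → n ≤ x → |(G i n : ℝ)| ≤ C * H * n ^ d) →
      number (box d H) (fun P => ¬ ∀ y ≤ x, ∀ s : Fin k → ℝ, (∀ i, s i = 1 ∨ s i = -1) →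
        |number (Icc 1 y) (fun n => ∀ i, ext f c (value P (n + h i) + G i n) = s i) - (y : ℝ) / 2 ^ k| ≤ ε * x) ≤
        ε * (box d H).card) ∧
    ∃ A : ℕ, ∀ H x : ℕ, A ≤ x → A * x ^ (3 * k - 1) ≤ H →
      ∀ f : ℕ → ℝ, RealMult f → Far A H f → ∀ c : ℝ, |c| ≤ 1 → ∀ j : Fin k,
      ∀ G : ℕ → ℤ, (∀ n, 1 ≤ n → n ≤ x → |(G n : ℝ)| ≤ C * H * n ^ d) →
      ∀ Φ : ℕ → (Fin k → ℤ) → ℂ, (∀ n u, ‖Φ n u‖ ≤ 1) → (∀ n u z, Φ n (Function.update u j z) = Φ n u) →
      number (box d H) (fun P => ¬ ∀ y ≤ x, ‖∑ n ∈ Icc 1 y, (ext f c (value P (n + h j) + G n) : ℂ) *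
        Φ n (fun i => value P (n + h i))‖ ≤ ε * x) ≤ ε * (box d H).card := by
  classical
  refine ⟨fun f _ hf A => ?_, ?_, ?_⟩
  · have h1 : ∀ (j : ℕ) (χ : DirichletCharacter ℂ (j + 1)), ∃ N₀ : ℕ, ∀ N : ℕ, N₀ ≤ N → (A : ℝ) ≤ dist2 f χ N := by
      intro j χ
      exact Filter.eventually_atTop.1 ((hf (j + 1) χ (by omega)).eventually_ge_atTop (A : ℝ))
    choose N₀ hN₀ using h1
    refine ⟨∑ j ∈ range A, ∑ χ : DirichletCharacter ℂ (j + 1), N₀ j χ, fun N hN q χ h2 h3 _ => ?_⟩
    obtain ⟨j, rfl⟩ : ∃ j, q = j + 1 := ⟨q - 1, by omega⟩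
    refine hN₀ j χ N (le_trans ?_ hN)
    have h5 := single_le_sum (f := fun χ => N₀ j χ) (fun _ _ => Nat.zero_le _) (mem_univ χ)
    have h6 := single_le_sum (f := fun j => ∑ χ : DirichletCharacter ℂ (j + 1), N₀ j χ) (fun _ _ => Nat.zero_le _)
      (mem_range.2 (by omega : j < A))
    exact h5.trans h6
  · obtain ⟨A, -, hA⟩ := Pool.Agent.Helper82K9.PX.pat k hk h hinj d (by omega) C ε hε
    refine ⟨A, fun H x hx hxH f hf hF c hc G hG => ?_⟩
    have hcc : (c : ℂ) = 1 ∨ (c : ℂ) = -1 := by
      rcases hc with h1 | h1 <;> rw [h1] <;> simp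
    have hpm : ∀ n, 1 ≤ n → zr f n = 1 ∨ zr f n = -1 := by
      intro n hn
      unfold zr
      rw [if_neg (by omega)]
      exact hf.1 n hn
    refine (number_le _ _ _ fun P hP1 hP2 => ?_).trans (hA H x hx hxH (zr f) (sign_of hf) hpm (far_of hF) c hcc G hG)
    intro hgood
    apply hP2
    intro y hy s hs
    have key := hgood y hy (fun i => if s i = 1 then 1 else -1) (fun i => by
      beta_reduce
      split_ifs
      · exact Or.inl rfl
      · exact Or.inr rfl)
    refine le_trans (le_of_eq ?_) key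
    congr 2
    refine number_eq _ _ _ fun n _ => ?_
    have e : Pool.Agent.TH892.RT.pv P = value P := rfl
    rw [e]
    constructor
    · intro hh i
      rw [← ext_eq, hh i]
      rcases hs i with h1 | h1
      · rw [if_pos h1, h1]; simp
      · rw [if_neg (by rw [h1]; norm_num), h1]; simp
    · intro hh i
      have h2 := hh i
      rw [← ext_eq] at h2
      rcases hs i with h1 | h1
      · rw [if_pos h1] at h2
        rw [h1]
        exact_mod_cast h2
      · rw [if_neg (by rw [h1]; norm_num)] at h2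
        rw [h1]
        exact_mod_cast h2
  · have hex : ∀ j : Fin k, ∃ A : ℕ, 1 ≤ A ∧ ∀ H x : ℕ, A ≤ x → A * x ^ (3 * k - 1) ≤ H →
        ∀ f : ℕ → ℝ, Pool.Agent.Helper82K9.EL.RMul f → Pool.Agent.Helper82K9.EL.FarR A H f → ∀ c : ℂ, ‖c‖ ≤ 1 →
        ∀ g : ℕ → ℤ, (∀ n, 1 ≤ n → n ≤ x → |(g n : ℝ)| ≤ C * H * n ^ d) →
        ∀ Γ : ℕ → (Fin (d + 1) → ℤ) → ℂ, (∀ n v, ‖Γ n v‖ ≤ 1) →
        Pool.Agent.Helper82K9.PX.Inv ((univ.erase j).image h) Γ →
        ((((Pool.Agent.TH892.RT.Bx d H).filter (fun v => ∃ y ≤ x, ε * x < ‖∑ n ∈ Icc 1 y,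
          Pool.Agent.Helper82K9.RQ.sg (fun n => (f n : ℂ)) c (Pool.Agent.TH892.RT.pv v (n + h j) + g n) * Γ n v‖)).card : ℕ) : ℝ) ≤
          ε * (Pool.Agent.TH892.RT.Bx d H).card := by
      intro j
      have hJ : h j ∉ (univ.erase j).image h := by
        intro hh
        rw [mem_image] at hh
        obtain ⟨i, hi, hi2⟩ := hh
        exact (mem_erase.1 hi).1 (hinj hi2)
      have hJc : ((univ.erase j).image h).card ≤ k - 1 := by
        refine card_image_le.trans ?_
        rw [card_erase_of_mem (mem_univ j), card_univ, Fintype.card_fin]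
      obtain ⟨A, hA1, hA⟩ := Pool.Agent.Helper82K9.PX.real_mult ((univ.erase j).image h) (h j) hJ d (by omega) C ε hε
      refine ⟨A, hA1, fun H x hx hxH => ?_⟩
      refine hA H x hx (le_trans ?_ hxH)
      apply Nat.mul_le_mul_left
      exact Nat.pow_le_pow_right (hA1.trans hx) (by omega)
    choose A0 hA1 hA0 using hex
    refine ⟨∑ j, A0 j, fun H x hx hxH f hf hF c hc j G hG Φ hΦ hΦ2 => ?_⟩
    have hA0A : A0 j ≤ ∑ j, A0 j := single_le_sum (f := fun j => A0 j) (fun _ _ => Nat.zero_le _) (mem_univ j)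
    have e : ∀ P : Fin (d + 1) → ℤ, Pool.Agent.TH892.RT.pv P = value P := fun P => rfl
    have key := hA0 j H x (hA0A.trans hx) ((Nat.mul_le_mul_right _ hA0A).trans hxH) (zr f) (real_of hf)
      (Pool.Agent.Helper82K9.RQ.farR_mono (far_of hF) hA0A) (c : ℂ) (by
        rw [Complex.norm_real, Real.norm_eq_abs]; exact hc) G hG
      (fun n v => Φ n (fun i => value v (n + h i))) (fun n v => hΦ n _) (fun n v r hr => by
        have h1 : (fun i => value (v + r) (n + h i)) = Function.update (fun i => value v (n + h i)) j (value (v + r) (n + h j)) := by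
          funext i
          by_cases hi : i = j
          · subst hi
            rw [Function.update_self]
          · rw [Function.update_of_ne hi]
            have h2 := hr (h i) (mem_image_of_mem h (mem_erase.2 ⟨hi, mem_univ _⟩))
            have h3 := Pool.Agent.Helper82K9.PX.pv_smul v r 1 (n + h i)
            rw [one_smul, h2, e, e] at h3
            rw [h3]
            simp
        beta_reduce
        rw [h1]
        exact hΦ2 _ _ _)
    refine (number_le _ _ _ fun P hP1 hP2 => ?_).trans key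
    simp only [not_forall, not_le] at hP2
    obtain ⟨y, hy, hP3⟩ := hP2
    refine ⟨y, hy, lt_of_lt_of_le hP3 (le_of_eq ?_)⟩
    congr 1
    refine sum_congr rfl fun n hn => ?_
    rw [e, ← ext_eq]

end Pool.Agent.Results.MP_4a7640_nt.PolynomialArguments
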