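import Pool.Agent.Results.MP_4a7640_nt.PhasePolynomials
import Pool.Agent.Results.MP_663568_nt.PolynomialPhases
import Pool.Agent.Helper42K9.AC.Abs
import Pool.Agent.Helper42K9.AC.Cfp
import Pool.Agent.Helper42K9.AC.Fin
import Pool.Agent.Helper42K9.AC.Fur
import Pool.Agent.Helper42K9.AC.New
import Pool.Agent.Helper42K9.AC.NulS
import Pool.Agent.Helper42K9.AC.Per
import Pool.Agent.Helper42K9.AC.Pre
import Pool.Agent.Helper42K9.AC.Rat
import Pool.Agent.Helper42K9.AC.Win
import Pool.Agent.Helper44K9.FS.FurB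

/-!
# Furstenberg systems of aperiodic multiplicative functions with values `1` and `-1` are orthogonal to structured
families with singular frequencies

Let `(Z, ρ, S)` be an extension (for example a joining with another system) of a Furstenberg system of an aperiodic
multiplicative function with values `1` and `-1`. The coordinate `x(0)` is orthogonal to `u` in each of the following
cases. (a) `u(S^n z) = c e(P_z(n))` for all `n ≥ 0`, with a real polynomial `P_z` which may depend on `z` in an arbitrary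
way, but whose top irrational coefficient is almost everywhere in a fixed null set of real numbers. (b) `u` is a bounded
measurable function of an invariant map and of a map `φ` to a two-step nilmanifold with `φ(S z) = g(z) φ(z)`, `g`
invariant, if all integral combinations of the horizontal coordinates of `g` are irrational and have singular laws.
Quantitatively: if in (a) the degree is at most `d` and the coefficient of `x ^ d` is irrational, `d!` times it being in
a measurable set `E` modulo one, then `|∫ x(0) u| ≤ A |E|^(1/A)`, with `A` depending on `d` only.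
-/

set_option autoImplicit false

namespace Pool.Agent.Results.MP_4a7640_nt.SingularFrequencies

open MeasureTheory Filter Topology Finset Polynomial

/-- the numbers `-1`, `0`, `1` -/
abbrev Val : Type := ({-1, 0, 1} : Set ℝ)

/-- the space of two-sided sequences -/
abbrev X : Type := ℤ → Val

/-- the `n`-th power of the shift -/
def shift (n : ℤ) (x : X) : X := fun k => x (k + n)

/-- the sequence of the values `f n`, `n ≥ 1`, extended by zero -/
noncomputable def seq (f : ℕ → Val) : X := fun n => if 1 ≤ n then f n.toNat else ⟨0, by simp⟩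

/-- `μ` is a Furstenberg system of `f`: a weak-star limit, along some sequence `N j → ∞`, of the
logarithmic averages of the point masses at the shifts of the sequence of values of `f` -/
def IsFurstenbergSystem (f : ℕ → Val) (μ : Measure X) : Prop :=
  IsProbabilityMeasure μ ∧ ∃ N : ℕ → ℕ, Tendsto N atTop atTop ∧ ∀ φ : X → ℝ, Continuous φ →
    Tendsto (fun j => (1 / Real.log (N j : ℝ)) * ∑ n ∈ Icc 1 (N j), (1 / (n : ℝ)) * φ (shift (n : ℤ) (seq f)))
      atTop (𝓝 (∫ x, φ x ∂μ))

/-- multiplicative functions with values `1` and `-1` -/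
def IsMult (f : ℕ → Val) : Prop := (∀ n : ℕ, 1 ≤ n → (f n : ℝ) ≠ 0) ∧
  ∀ m n : ℕ, 1 ≤ m → 1 ≤ n → Nat.Coprime m n → (f (m * n) : ℝ) = f m * f n

/-- the distance to every Dirichlet character is infinite -/
def Aperiodic (f : ℕ → Val) : Prop := ∀ Q : ℕ, 0 < Q → ∀ χ : DirichletCharacter ℂ Q,
  ¬ Summable (fun p : ℕ => if p.Prime then
    (1 - (((f p : ℝ) : ℂ) * (starRingEnd ℂ) (χ (p : ZMod Q))).re) / (p : ℝ) else 0)

/-- `(Z, ρ, S)` is an extension of the system `(X, μ, shift 1)`, with factor map `π`; for example a joining of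
`(X, μ, shift 1)` with another system -/
def IsExtension {Z : Type} [MeasurableSpace Z] (ρ : Measure Z) (S : Z → Z) (π : Z → X) (μ : Measure X) : Prop :=
  MeasurePreserving S ρ ρ ∧ MeasurePreserving π ρ μ ∧ ∀ᵐ z ∂ρ, π (S z) = shift 1 (π z)

/-- `u` is a relative phase polynomial with polynomials in the class `C`: for almost every `z` there are `c ≥ 0` and a
real polynomial `P`, in `C` unless `c = 0`, with `u(S^n z) = c e(P(n))` for all `n ≥ 0`. -/
def IsPhase {Z : Type} [MeasurableSpace Z] (ρ : Measure Z) (S : Z → Z) (C : Set ℝ[X]) (u : Z → ℂ) : Prop :=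
  Measurable u ∧ (∀ z, ‖u z‖ ≤ 1) ∧ ∀ᵐ z ∂ρ, ∃ (c : ℝ) (P : ℝ[X]), 0 ≤ c ∧ (0 < c → P ∈ C) ∧
    ∀ n : ℕ, u (S^[n] z) = c * Complex.exp (2 * Real.pi * Complex.I * ((P.eval (n : ℝ) : ℝ) : ℂ))

/-- the polynomials whose top irrational coefficient of positive degree, if they have one, is in `E` -/
def TopIn (E : Set ℝ) : Set ℝ[X] :=
  {P | ∀ j ≥ 1, Irrational (P.coeff j) → (∀ i > j, ¬ Irrational (P.coeff i)) → P.coeff j ∈ E}

open Nat in
/-- the polynomials of degree at most `d` with irrational coefficient of `x ^ d`, the product of which and `d!` is in `E`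
modulo one -/
def LeadIn (d : ℕ) (E : Set UnitAddCircle) : Set ℝ[X] :=
  {P | P.natDegree ≤ d ∧ Irrational (P.coeff d) ∧ (((d ! : ℝ) * P.coeff d : ℝ) : UnitAddCircle) ∈ E}

/-- The product of the group `G = ℝ^d × ℝ^c`: `(x, t) (y, s) = (x + y, t + s + β(x, y))` with
`β(x, y)_l = ∑_{i,j} x_i β_l(i, j) y_j`. -/
noncomputable def mul {d c : ℕ} (β : Fin c → Matrix (Fin d) (Fin d) ℤ) (g h : (Fin d → ℝ) × (Fin c → ℝ)) :
    (Fin d → ℝ) × (Fin c → ℝ) :=
  (g.1 + h.1, g.2 + h.2 + fun l => ∑ i, ∑ j, g.1 i * (β l i j : ℝ) * h.1 j)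

/-- The commutator subgroup of `G` is `{0} × ℝ^c`: no nonzero integral combination of the matrices `β_l` is symmetric
(for `c = 0`, when `G = ℝ^d`, this is an empty condition). -/
def CommutatorsSpan {d c : ℕ} (β : Fin c → Matrix (Fin d) (Fin d) ℤ) : Prop :=
  ∀ k : Fin c → ℤ, k ≠ 0 → (∑ l, k l • β l).transpose ≠ ∑ l, k l • β l

/-- `Y` is the nilmanifold `G/Γ`, `Γ = ℤ^d × ℤ^c`, with the projection `p` -/
def IsNilmanifold {d c : ℕ} (β : Fin c → Matrix (Fin d) (Fin d) ℤ) {Y : Type} [TopologicalSpace Y]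
    (p : (Fin d → ℝ) × (Fin c → ℝ) → Y) : Prop :=
  Continuous p ∧ Function.Surjective p ∧ ∀ g h, p g = p h ↔ ∃ (m : Fin d → ℤ) (j : Fin c → ℤ),
    h = mul β g (fun i => (m i : ℝ), fun l => (j l : ℝ))

/-- `φ : Z → Y` is a family of two-step nilrotations with singular frequencies: `Y = G/Γ` is a two-step nilmanifold,
`φ(S z) = g(z) φ(z)` with an invariant map `g : Z → G` (for almost every `z`), and for every integer vector `k ≠ 0` the
number `k · g(z)_1`, `g(z)_1` the horizontal part, is almost surely irrational and its law modulo one is singular to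
Lebesgue measure. -/
def TwoStepFamily {Z : Type} [MeasurableSpace Z] (ρ : Measure Z) (S : Z → Z) {Y : Type} [TopologicalSpace Y]
    [MeasurableSpace Y] (φ : Z → Y) : Prop :=
  ∃ (d c : ℕ) (β : Fin c → Matrix (Fin d) (Fin d) ℤ) (p : (Fin d → ℝ) × (Fin c → ℝ) → Y)
    (g : Z → (Fin d → ℝ) × (Fin c → ℝ)), CommutatorsSpan β ∧ IsNilmanifold β p ∧ Measurable g ∧ Measurable φ ∧
    (∀ᵐ z ∂ρ, g (S z) = g z) ∧ (∀ᵐ z ∂ρ, ∀ h, p h = φ z → φ (S z) = p (mul β (g z) h)) ∧
    ∀ k : Fin d → ℤ, k ≠ 0 →
      (ρ.map fun z => ∑ i, k i • (((g z).1 i : ℝ) : UnitAddCircle)) ⟂ₘ (volume : Measure UnitAddCircle) ∧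
      ∀ᵐ z ∂ρ, Irrational (∑ i, (k i : ℝ) * (g z).1 i)

/-- **Orthogonality to structured families with singular frequencies.** Let `f` be a multiplicative function with values
`1` and `-1`, `μ` a Furstenberg system of `f`, `(Z, ρ, S)` an extension of it. (1) If `f` is aperiodic, `∫ x(0) u dρ = 0`
for (a) every relative phase polynomial `u` (of any degree) on `Z` whose top irrational coefficient is almost everywhere
in a fixed null set, (b) `u = V(κ, φ)` for every family `φ` of two-step nilrotations with singular frequencies, every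
invariant map `κ` and every bounded measurable `V`. (2) For every `d ≥ 1` there is `A`, depending on `d` only, such that
`|∫ x(0) u dρ| ≤ A |E|^(1/A)` for every measurable set `E` of the circle and every relative phase polynomial `u` of
degree at most `d` with irrational coefficient of `x ^ d`, `d!` times it in `E` modulo one. -/
theorem result :
    (∀ f : ℕ → Val, IsMult f → Aperiodic f → ∀ μ : Measure X, IsFurstenbergSystem f μ →
      ∀ (Z : Type) [MeasurableSpace Z] (ρ : Measure Z) [IsProbabilityMeasure ρ] (S : Z → Z) (π : Z → X),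
      IsExtension ρ S π μ →
      (∀ E : Set ℝ, volume E = 0 → ∀ u : Z → ℂ, IsPhase ρ S (TopIn E) u → ∫ z, ((π z 0 : ℝ) : ℂ) * u z ∂ρ = 0) ∧
      ∀ (Y : Type) [MetricSpace Y] [CompactSpace Y] [MeasurableSpace Y] [BorelSpace Y] (φ : Z → Y),
        TwoStepFamily ρ S φ → ∀ (W : Type) [MeasurableSpace W] (κ : Z → W), Measurable κ →
        (∀ᵐ z ∂ρ, κ (S z) = κ z) → ∀ V : W × Y → ℂ, Measurable V → ∀ C : ℝ, (∀ w, ‖V w‖ ≤ C) →
        ∫ z, ((π z 0 : ℝ) : ℂ) * V (κ z, φ z) ∂ρ = 0) ∧
    (∀ d : ℕ, 1 ≤ d → ∃ A : ℕ, 1 ≤ A ∧ ∀ f : ℕ → Val, IsMult f → ∀ μ : Measure X, IsFurstenbergSystem f μ →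
      ∀ (Z : Type) [MeasurableSpace Z] (ρ : Measure Z) [IsProbabilityMeasure ρ] (S : Z → Z) (π : Z → X),
      IsExtension ρ S π μ → ∀ E : Set UnitAddCircle, MeasurableSet E → ∀ u : Z → ℂ, IsPhase ρ S (LeadIn d E) u →
      ‖∫ z, ((π z 0 : ℝ) : ℂ) * u z ∂ρ‖ ≤ A * (volume E).toReal ^ (1 / (A : ℝ))) := by
  open Pool.Agent.Helper42K9.AC in
  have hPP : S_PP := Pool.Agent.Results.MP_663568_nt.PolynomialPhases.result.1
  have hMP : Pool.Agent.Helper42K9.AC.S_MP := fun f μ hμ =>
    Pool.Agent.Results.MP_4a7640_nt.PhasePolynomials.mp_shift (f := f) (μ := μ) hμ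
  have hNO : Pool.Agent.Helper42K9.AC.S_NOAT := fun f hf ha μ hμ =>
    Pool.Agent.Results.MP_4a7640_nt.PhasePolynomials.no_atoms (f := f) hf ha hμ
  open Pool.Agent.Helper42K9.AC in
  have hFUR : S_FUR := fur win hPP
  open Pool.Agent.Helper42K9.AC in
  have hCLM : S_CLM := clm hFUR abs_ new cfp pre reg
  have hPER : Pool.Agent.Helper42K9.AC.S_PER := Pool.Agent.Helper42K9.AC.per hNO hMP
  open Pool.Agent.Helper42K9.AC in
  have hRAT : S_RAT := rat hPER abs_ new
  open Pool.Agent.Helper42K9.AC in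
  have hFIN : S_FIN := Pool.Agent.Helper42K9.AC.fin hCLM hRAT (typ dpc) dpc cfp nul aei
  open Pool.Agent.Helper42K9.AC in
  have hQUA : S_QUA := qua hCLM dpc
  constructor
  · intro f hf ha μ hμ Z _ ρ _ S π hext
    have hE' : Pool.Agent.Helper42K9.AC.Ext ρ S π μ := ⟨hext.1, hext.2.1, hext.2.2⟩
    constructor
    · intro E hE u hu
      refine hFIN f hf ha μ hμ Z ρ S π hE' E hE u hu.1 hu.2.1 ?_
      filter_upwards [hu.2.2] with z hz
      obtain ⟨c, P, hc, hP, hz⟩ := hz
      exact ⟨c, P, hc, hz, hP⟩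
    · intro Y _ _ _ _ φ hφ W _ κ hκ hκS V hV C hC
      exact Pool.Agent.Helper44K9.FS.part_b hPER f hf ha μ hμ Z ρ S π hE' Y φ hφ W κ hκ hκS V hV C hC
  · intro d hd
    obtain ⟨A, hA, h⟩ := hQUA d hd
    refine ⟨A, hA, fun f hf μ hμ Z _ ρ _ S π hext E hE u hu => ?_⟩
    refine h f hf μ hμ Z ρ S π ⟨hext.1, hext.2.1, hext.2.2⟩ E hE u hu.1 hu.2.1 ?_
    filter_upwards [hu.2.2] with z hz
    obtain ⟨c, P, hc, hP, hz⟩ := hz
    exact ⟨c, P, hc, hz, hP⟩

end Pool.Agent.Results.MP_4a7640_nt.SingularFrequencies
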